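import Pool.Agent.Y92.ZX.Stm3
import Pool.Agent.Y448.ZX.Red

/-!
# Project ZX, block FAM1: the data of one curve over all sufficiently large rings
-/

set_option autoImplicit false
set_option linter.unusedSectionVars false

open Polynomial

namespace Pool.Agent.Y948.ZX

open Pool.Agent.Y226 Pool.Agent.Y226.ZG Pool.Agent.Y226.ZM Pool.Agent.Y226.ZU Pool.Agent.Y92.ZX
open Pool.Agent.Y448.ZX (P1 P2 P1_iff P2_iff mapRD)

section desc

variable {K : Type} [Field K] {σ : Type}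

/-- the coefficients of a polynomial are in all large rings -/
theorem lrg_mvcoeffs (f : MvPolynomial σ K) : Lrg K (fun R => ∀ m, MvPolynomial.coeff m f ∈ R) := by
  classical
  refine ⟨f.support.image fun m => MvPolynomial.coeff m f, fun R hR m => ?_⟩
  by_cases hm : m ∈ f.support
  · exact hR _ (Finset.mem_image_of_mem _ hm)
  · rw [MvPolynomial.notMem_support_iff.1 hm]
    exact zero_mem R

/-- lifting a polynomial -/
theorem exists_mvlift {R : Subring K} (f : MvPolynomial σ K)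
    (hf : ∀ m, MvPolynomial.coeff m f ∈ R) :
    ∃ f₀ : MvPolynomial σ R, MvPolynomial.map R.subtype f₀ = f := by
  classical
  refine ⟨∑ m ∈ f.support, MvPolynomial.monomial m (⟨MvPolynomial.coeff m f, hf m⟩ : R), ?_⟩
  rw [map_sum]
  conv_rhs => rw [f.as_sum]
  refine Finset.sum_congr rfl fun m _ => ?_
  rw [MvPolynomial.map_monomial]
  rfl

/-- membership in an ideal over all large rings -/
theorem descent {κ : Type} [Finite κ] (G : κ → MvPolynomial σ K) {f : MvPolynomial σ K}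
    (hf : f ∈ Ideal.span (Set.range G)) :
    Lrg K (fun R => ∀ (fR : MvPolynomial σ R) (GR : κ → MvPolynomial σ R),
      MvPolynomial.map R.subtype fR = f → (∀ t, MvPolynomial.map R.subtype (GR t) = G t) →
      fR ∈ Ideal.span (Set.range GR)) := by
  classical
  have := Fintype.ofFinite κ
  obtain ⟨c, hc⟩ := Ideal.mem_span_range_iff_exists_fun.1 hf
  have h1 : Lrg K (fun R => ∀ t, ∀ m, MvPolynomial.coeff m (c t) ∈ R) :=
    Lrg.all fun t => lrg_mvcoeffs (c t)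
  refine h1.mono fun R hR fR GR hfR hGR => ?_
  choose c₀ hc₀ using fun t => exists_mvlift (c t) (hR t)
  refine Ideal.mem_span_range_iff_exists_fun.2 ⟨c₀, ?_⟩
  apply MvPolynomial.map_injective R.subtype Subtype.val_injective
  rw [hfR, ← hc, map_sum]
  refine Finset.sum_congr rfl fun t _ => ?_
  rw [map_mul, hc₀, hGR]

end desc

section hp

variable {A B : Type} [CommRing A] [CommRing B] (χ : A →+* B) {n : ℕ}

theorem mm_map (v : Fin n → ℤ) : MvPolynomial.map χ (mm A v) = mm B v := by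
  unfold mm
  rw [map_prod]
  refine Finset.prod_congr rfl fun i _ => ?_
  rw [map_pow, MvPolynomial.map_X]

theorem hpol_map (d : ℕ) (h : A[X][X]) (v w : Fin n → ℤ) :
    MvPolynomial.map χ (hpol d h v w) = hpol d (h.map (mapRingHom χ)) v w := by
  unfold hpol
  rw [map_sum]
  refine Finset.sum_congr rfl fun m _ => ?_
  rw [map_mul, map_mul, map_mul, map_mul, map_pow, map_pow, map_pow, map_pow, mm_map, mm_map,
    mm_map, mm_map, MvPolynomial.map_C, cf_map]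

theorem E2X_map (g : A[X][X]) (i j : Fin n) :
    MvPolynomial.map χ (E2 MvPolynomial.C (MvPolynomial.X i) (MvPolynomial.X j) g) =
      E2 MvPolynomial.C (MvPolynomial.X i) (MvPolynomial.X j) (g.map (mapRingHom χ)) := by
  have h1 : (MvPolynomial.map χ : MvPolynomial (Fin n) A →+* MvPolynomial (Fin n) B).comp
      MvPolynomial.C = MvPolynomial.C.comp χ := by
    refine RingHom.ext fun r => ?_
    show MvPolynomial.map χ (MvPolynomial.C r) = MvPolynomial.C (χ r)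
    rw [MvPolynomial.map_C]
  rw [map_E2, E2_map, h1, MvPolynomial.map_X, MvPolynomial.map_X]

end hp

/-- block FAM1 over a general field -/
theorem fam1_gen {K : Type} [Field K] [IsAlgClosed K] [CharZero K] (n W d₀ : ℕ) (κ : Type)
    [Finite κ] (G : Option (Fin n) → κ → MvPolynomial (Fin n) K)
    (hJ : CC d₀ (Ideal.span (Set.range (G none))))
    (hmem : ∀ (N M d D : ℕ) (𝓡 : RD K n N W M d D), Rels 𝓡 (Ideal.span (Set.range (G none))) →
      MemI (fun c => Ideal.span (Set.range (G c))) 𝓡) :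
    ∃ (N M d D B : ℕ) (S₀ : Finset K), 0 < N ∧ W * N + W ≤ M ∧
      ∀ R : Subring K, (∀ s ∈ S₀, s ∈ R) →
      ∀ GR : Option (Fin n) → κ → MvPolynomial (Fin n) R,
        (∀ c t, MvPolynomial.map R.subtype (GR c t) = G c t) →
        ∃ 𝓡 : RD R n N W M d D, RDB 𝓡 B ∧ MemI (fun c => Ideal.span (Set.range (GR c))) 𝓡 := by
  classical
  set J := Ideal.span (Set.range (G none)) with hJdef
  have := hJ.prime
  obtain ⟨𝔽, _, _, x, hx1, hx2⟩ := ff_of_prime J
  obtain ⟨𝒞, h𝒞⟩ := exists_GP x hx1 (fun i => by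
      intro halg
      obtain ⟨r, hr, hr0⟩ := halg
      obtain ⟨c, hc⟩ := root_const (algebraMap K 𝔽) hr hr0
      apply hJ.const i c
      rw [← hx2, map_sub, MvPolynomial.aeval_X, MvPolynomial.aeval_C, hc, sub_self])
    (fun i j hij => by
      obtain ⟨a, b, g, -, -, h1, h2, h3, h4, h5⟩ := hJ.gen i j hij
      refine ⟨a, b, mkG a b g, mkG_cor h1 h2 h3 h4, ?_⟩
      rw [← E2_mkG, ← hx2, aeval_E2, MvPolynomial.aeval_X, MvPolynomial.aeval_X] at h5
      exact h5)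
  subst h𝒞
  obtain ⟨H, d, D, hH, -, hL⟩ := 𝒞.exists_RD W (W * 𝒞.N + W)
  -- the data over `K`
  obtain ⟨𝓡T, hgT, hhT, -⟩ : ∃ 𝓡 : RD (⊤ : Subring K) n 𝒞.N W (W * 𝒞.N + W) d D,
      (∀ i s j, i ≠ j → (𝓡.g i s j).map (mapRingHom (⊤ : Subring K).subtype) = 𝒞.g i s j) ∧
      (∀ v w, Bv (W * 𝒞.N + W) v → Bv (W * 𝒞.N + W) w → LI v w →
        (𝓡.h v w).map (mapRingHom (⊤ : Subring K).subtype) = H v w) ∧
      (∀ i s j, i ≠ j → (𝓡.ys i s j).map (um (⊤ : Subring K)) = 𝒞.ys i s j) := by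
    obtain ⟨S₁, hS₁⟩ := hL
    exact hS₁ ⊤ fun s _ => Subring.mem_top s
  set 𝓡A : RD K n 𝒞.N W (W * 𝒞.N + W) d D := mapRD (⊤ : Subring K).subtype 𝓡T with h𝓡A
  have hgA : ∀ i s j, i ≠ j → 𝓡A.g i s j = 𝒞.g i s j := fun i s j hij => hgT i s j hij
  have hhA : ∀ v w, Bv (W * 𝒞.N + W) v → Bv (W * 𝒞.N + W) w → LI v w →
      𝓡A.h v w = H v w := fun v w hv hw hvw => hhT v w hv hw hvw
  choose e he using fun q : Fin n × Bool × Fin n => exists_BD (𝓡A.g q.1 q.2.1 q.2.2)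
  have hP1J : ∀ q : Fin n × Bool × Fin n, q.1 ≠ q.2.2 → P1 𝓡A e q ∈ J := by
    intro q hq
    rw [← hx2]
    have h1 := P1_iff (𝓡 := 𝓡A) (e := e)
      ((MvPolynomial.aeval 𝒞.x : MvPolynomial (Fin n) K →ₐ[K] 𝔽).toRingHom)
      (algebraMap K 𝔽) (fun c => MvPolynomial.aeval_C 𝒞.x c)
      (fun i => MvPolynomial.aeval_X 𝒞.x i) 𝒞.x_ne he q
    refine h1.2 ?_
    rw [hgA _ _ _ hq]
    exact 𝒞.rel _ _ _ hq
  have hP2J : ∀ v w, Bv (W * 𝒞.N + W) v → Bv (W * 𝒞.N + W) w → LI v w →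
      P2 𝓡A (v, w) ∈ J := by
    intro v w hv hw hvw
    rw [← hx2]
    have h1 := P2_iff (𝓡 := 𝓡A)
      ((MvPolynomial.aeval 𝒞.x : MvPolynomial (Fin n) K →ₐ[K] 𝔽).toRingHom)
      (algebraMap K 𝔽) (fun c => MvPolynomial.aeval_C 𝒞.x c)
      (fun i => MvPolynomial.aeval_X 𝒞.x i) 𝒞.x_ne hv hw hvw
    refine h1.2 ?_
    rw [hhA v w hv hw hvw]
    exact hH v w hvw
  have hRels : Rels 𝓡A J := by
    intro 𝔽' _ _ y hyI hy0
    refine ⟨fun i s j hij => ?_, fun v w hv hw hvw => ?_⟩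
    · have h1 := P1_iff (𝓡 := 𝓡A) (e := e)
        ((MvPolynomial.aeval y : MvPolynomial (Fin n) K →ₐ[K] 𝔽').toRingHom)
        (algebraMap K 𝔽') (fun c => MvPolynomial.aeval_C y c)
        (fun i => MvPolynomial.aeval_X y i) hy0 he (i, s, j)
      exact h1.1 (hyI _ (hP1J (i, s, j) hij))
    · have h1 := P2_iff (𝓡 := 𝓡A)
        ((MvPolynomial.aeval y : MvPolynomial (Fin n) K →ₐ[K] 𝔽').toRingHom)
        (algebraMap K 𝔽') (fun c => MvPolynomial.aeval_C y c)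
        (fun i => MvPolynomial.aeval_X y i) hy0 hv hw hvw
      exact h1.1 (hyI _ (hP2J v w hv hw hvw))
  have hMA := hmem _ _ _ _ 𝓡A hRels
  -- descent of the relations
  have l1 : Lrg K (fun R => ∀ (c : Option (Fin n)) (i : Fin n) (s : Bool) (j : Fin n),
      (i ≠ j ∧ (s = false ∧ c ≠ some i ∨ s = true ∧ c = some i) ∧ c ≠ some j) →
      ∀ (fR : MvPolynomial (Fin n) R) (GR : κ → MvPolynomial (Fin n) R),
      MvPolynomial.map R.subtype fR =
        E2 MvPolynomial.C (MvPolynomial.X i) (MvPolynomial.X j) (𝒞.g i s j) →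
      (∀ t, MvPolynomial.map R.subtype (GR t) = G c t) →
      fR ∈ Ideal.span (Set.range GR)) := by
    refine Lrg.all fun c => Lrg.all fun i => Lrg.all fun s => Lrg.all fun j => Lrg.imp fun hc => ?_
    refine descent (G c) ?_
    rw [← hgA i s j hc.1]
    exact hMA.m1 c i s j hc.1 hc.2.1 hc.2.2
  have hfin : Finite {q : (Fin n → ℤ) × (Fin n → ℤ) // Bv (W * 𝒞.N + W) q.1 ∧
      Bv (W * 𝒞.N + W) q.2 ∧ LI q.1 q.2} := (finite_Bv n (W * 𝒞.N + W)).to_subtype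
  have l2 : Lrg K (fun R => ∀ (c : Option (Fin n))
      (q : {q : (Fin n → ℤ) × (Fin n → ℤ) // Bv (W * 𝒞.N + W) q.1 ∧
        Bv (W * 𝒞.N + W) q.2 ∧ LI q.1 q.2}),
      (∀ a, c = some a → q.1.1 a = 0 ∧ q.1.2 a = 0) →
      ∀ (fR : MvPolynomial (Fin n) R) (GR : κ → MvPolynomial (Fin n) R),
      MvPolynomial.map R.subtype fR = hpol d (H q.1.1 q.1.2) q.1.1 q.1.2 →
      (∀ t, MvPolynomial.map R.subtype (GR t) = G c t) →
      fR ∈ Ideal.span (Set.range GR)) := by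
    refine Lrg.all fun c => Lrg.all fun q => Lrg.imp fun hc => ?_
    refine descent (G c) ?_
    rw [← hhA q.1.1 q.1.2 q.2.1 q.2.2.1 q.2.2.2]
    exact hMA.m2 c q.1.1 q.1.2 q.2.1 q.2.2.1 q.2.2.2 hc
  -- the bounds
  have b1 : Bdd (fun B => ∀ (i : Fin n) (s : Bool) (j : Fin n),
      Multiset.card (𝒞.ys i s j) ≤ B) := by
    refine Bdd.all fun i => Bdd.all fun s => Bdd.all fun j => ?_
    exact ⟨Multiset.card (𝒞.ys i s j), fun B hB => hB⟩
  have b2 : Bdd (fun B => ∀ (i : Fin n) (s : Bool) (j k : Fin n),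
      ∀ y ∈ 𝒞.ys i s j, ∀ y' ∈ 𝒞.ys i s k,
      ∀ m, (PowerSeries.coeff m (E2 (PowerSeries.C (R := K)) (y : PowerSeries K)
        (y' : PowerSeries K) (𝒞.g j false k)) ≠ 0 ∧ ∀ m' < m, PowerSeries.coeff m'
        (E2 (PowerSeries.C (R := K)) (y : PowerSeries K)
        (y' : PowerSeries K) (𝒞.g j false k)) = 0) → m ≤ B) := by
    refine Bdd.all fun i => Bdd.all fun s => Bdd.all fun j => Bdd.all fun k =>
      Bdd.multiset _ fun y _ => Bdd.multiset _ fun y' _ => ?_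
    by_cases h : ∃ m, (PowerSeries.coeff m (E2 (PowerSeries.C (R := K)) (y : PowerSeries K)
        (y' : PowerSeries K) (𝒞.g j false k)) ≠ 0 ∧ ∀ m' < m, PowerSeries.coeff m'
        (E2 (PowerSeries.C (R := K)) (y : PowerSeries K)
        (y' : PowerSeries K) (𝒞.g j false k)) = 0)
    · obtain ⟨m, hm, hm'⟩ := h
      refine ⟨m, fun B hB m₁ h₁ => ?_⟩
      rcases lt_trichotomy m m₁ with h2 | h2 | h2
      · exact absurd (h₁.2 m h2) hm
      · omega
      · omega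
    · exact ⟨0, fun B _ m₁ h₁ => absurd ⟨m₁, h₁⟩ h⟩
  obtain ⟨B₁, hB₁⟩ := b1
  obtain ⟨B₂, hB₂⟩ := b2
  obtain ⟨S₀, hS₀⟩ := hL.and (l1.and l2)
  refine ⟨𝒞.N, W * 𝒞.N + W, d, D, B₁ + B₂, S₀, 𝒞.hN, le_rfl, ?_⟩
  intro R hR GR hGR
  obtain ⟨⟨𝓡, hg, hh, hy⟩, k1, k2⟩ := hS₀ R hR
  have hmemy : ∀ i s j, i ≠ j → ∀ y ∈ 𝓡.ys i s j, um R y ∈ 𝒞.ys i s j := by
    intro i s j hij y hyy
    rw [← hy i s j hij]
    exact Multiset.mem_map_of_mem _ hyy
  refine ⟨𝓡, ⟨fun i s j hij => ?_, ?_⟩, ⟨?_, ?_⟩⟩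
  · have h1 := hB₁ (B₁ + B₂) (by omega) i s j
    rw [← hy i s j hij, Multiset.card_map] at h1
    exact h1
  · intro i s j k hij hik hjk y hyy y' hyy' A hA B' hB' hB0
    rcases 𝓡.br i s j k hij hik hjk y hyy y' hyy' A hA B' hB' hB0 with ⟨m, h1, h2⟩ | h3
    · left
      refine ⟨m, ?_, h1, h2⟩
      refine hB₂ (B₁ + B₂) (by omega) i s j k (um R y) (hmemy i s j hij y hyy) (um R y')
        (hmemy i s k hik y' hyy') m ?_
      rw [um_val, um_val, ← E2_pm (hg j false k hjk)]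
      refine ⟨?_, fun m' hm' => ?_⟩
      · rw [coeff_pm]
        have h4 := (h1.map R.subtype).ne_zero
        exact h4
      · rw [coeff_pm, h2 m' hm']
        rfl
    · exact Or.inr h3
  · intro c i s j hij hs hcj
    refine k1 c i s j ⟨hij, hs, hcj⟩ _ (GR c) ?_ (hGR c)
    rw [E2X_map, hg i s j hij]
  · intro c v w hv hw hvw hc
    refine k2 c ⟨(v, w), hv, hw, hvw⟩ hc _ (GR c) ?_ (hGR c)
    rw [hpol_map, hh v w hv hw hvw]

/-- Block FAM1. -/
theorem fam1 : S_FAM1 := by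
  intro n W d₀ κ _ G hJ hmem
  exact fam1_gen n W d₀ κ G hJ hmem

end Pool.Agent.Y948.ZX
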