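import Pool.Agent.Y92.ZX.Stm
import Pool.Agent.Y226.ZG.TameEq2
import Pool.Agent.Y226.ZG.TameFin
import Pool.Agent.Y226.ZG.Loc

/-!
# Tame torsion for curves with good reduction (after Pool.Agent.Y226.ZG.Loc4)
-/

set_option autoImplicit false
set_option linter.unusedSectionVars false

open UpperHalfPlane H294ZP Polynomial

namespace Pool.Agent.Y948.ZX

open Pool.Agent.Y226 Pool.Agent.Y226.ZG Pool.Agent.Y226.ZM Pool.Agent.Y226.ZU Pool.Agent.Y92.ZX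

section general

variable {C : Type} [NormedField C] [IsUltrametricDist C] [CharZero C]
  [IsAlgClosed C] {p : ℕ} [hpf : Fact p.Prime]

/-- division by `p` -/
theorem divp (hp0 : 0 < ‖(p : C)‖) {a : C} (h : ‖a‖ ≤ ‖(p : C)‖) : ∃ v : OO C, a = p * v := by
  have hpC : (p : C) ≠ 0 := norm_pos_iff.1 hp0
  refine ⟨⟨a / p, ?_⟩, ?_⟩
  · rw [mem_OO, norm_div]
    exact (div_le_one hp0).2 h
  · show a = p * (a / p)
    field_simp

theorem divp2 (hp0 : 0 < ‖(p : C)‖) {a : C} (h : ‖a‖ ≤ ‖(p : C)‖ ^ 2) :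
    ∃ v : OO C, a = p ^ 2 * v := by
  have hpC : (p : C) ≠ 0 := norm_pos_iff.1 hp0
  refine ⟨⟨a / p ^ 2, ?_⟩, ?_⟩
  · rw [mem_OO, norm_div, norm_pow]
    exact (div_le_one (by positivity)).2 h
  · show a = p ^ 2 * (a / p ^ 2)
    field_simp

/-- Teichmüller decomposition -/
theorem teichO (hp0 : 0 < ‖(p : C)‖) (hp1 : ‖(p : C)‖ < 1) {c : OO C} (hc : (c : C) ∈ Nr C p) :
    ∃ τ v : OO C, c = τ + p * v ∧ ∃ f : ℕ, 0 < f ∧ τ ^ p ^ f = τ := by
  obtain ⟨τ, f, hf, hτ, hle⟩ := exists_teich hp1 hc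
  obtain ⟨v, hv⟩ := divp hp0 hle
  refine ⟨⟨τ, Nr_le (Nr_of_fixed hf hτ)⟩, v, Subtype.ext ?_, f, hf, Subtype.ext hτ⟩
  show (c : C) = τ + ((p : OO C) : C) * v
  have : ((p : OO C) : C) = p := by simp
  rw [this]
  linear_combination hv

/-- Teichmüller decomposition of units -/
theorem teichU (hp0 : 0 < ‖(p : C)‖) (hp1 : ‖(p : C)‖ < 1) {μ : Cˣ}
    (hμ : μ ∈ GG C p 0 le_rfl one_pos) : ∃ τ ν : OO C,
    ((μ⁻¹ : Cˣ) : C) = τ * (1 + p * ν) ∧ ∃ f : ℕ, 0 < f ∧ τ ^ p ^ f = τ := by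
  obtain ⟨w, hw, hw1, hwμ⟩ := inv_mem hμ
  have hw' : ((μ⁻¹ : Cˣ) : C) = w := by
    have := norm_le_zero_iff.1 hwμ
    exact sub_eq_zero.1 this
  obtain ⟨τ, f, hf, hτ, hle⟩ := exists_teich hp1 hw
  have hτ1 : ‖τ‖ = 1 := by
    have : τ - w = -(w - τ) := by ring
    refine neq_one (y := w) ?_ hw1
    rw [this, norm_neg]
    exact hle.trans_lt hp1
  have hτ0 : τ ≠ 0 := norm_pos_iff.1 (by rw [hτ1]; exact one_pos)
  have hle' : ‖(w - τ) * τ⁻¹‖ ≤ ‖(p : C)‖ := nmul_le' hle (by rw [norm_inv, hτ1, inv_one])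
  obtain ⟨ν, hν⟩ := divp hp0 hle'
  refine ⟨⟨τ, hτ1.le⟩, ν, ?_, f, hf, Subtype.ext hτ⟩
  show ((μ⁻¹ : Cˣ) : C) = τ * (1 + p * ν)
  rw [hw', ← hν]
  field_simp
  ring

/-- the elements of `Nr` as elements of the valuation ring -/
def NrO (C : Type) [NormedField C] [IsUltrametricDist C] (p : ℕ) [Fact p.Prime] :
    Nr C p →+* OO C := Subring.inclusion fun _ h => Nr_le h

end general

section LBsec

variable {C : Type} [NormedField C] [IsUltrametricDist C] [CharZero C]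
  [IsAlgClosed C] {p : ℕ} [hpf : Fact p.Prime] {k 𝕜 : Type}
  [Field k] [Field 𝕜] {n N W M d D B : ℕ} (𝓛 : LB C p k 𝕜 n N W M d D B)

include 𝓛 in
theorem pC_ne : (p : C) ≠ 0 := norm_pos_iff.1 𝓛.hp0

include 𝓛 in
theorem pO_ne : (p : OO C) ≠ 0 := by
  intro h
  apply pC_ne 𝓛
  have := congrArg (fun x : OO C => (x : C)) h
  simpa using this

/-- the inverses of the coordinates -/
theorem exists_inv {xO : Fin n → OO C} (hx1 : ∀ i, ‖(xO i : C)‖ = 1) :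
    ∃ yi : Fin n → OO C, (∀ i, (yi i : C) = ((xO i : OO C) : C)⁻¹) ∧
      ∀ i, 𝓛.red (yi i) = (𝓛.red (xO i))⁻¹ := by
  have hx0 : ∀ i, (xO i : C) ≠ 0 := fun i => norm_pos_iff.1 (by rw [hx1]; exact one_pos)
  have hinvex : ∀ i, ∃ y : OO C, (y : C) = ((xO i : OO C) : C)⁻¹ ∧
      𝓛.red y = (𝓛.red (xO i))⁻¹ := by
    intro i
    refine ⟨⟨((xO i : OO C) : C)⁻¹, by rw [mem_OO, norm_inv, hx1, inv_one]⟩, rfl, ?_⟩
    apply eq_inv_of_mul_eq_one_left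
    rw [← map_mul]
    have : (⟨((xO i : OO C) : C)⁻¹, by rw [mem_OO, norm_inv, hx1, inv_one]⟩ : OO C) * xO i =
        1 := by
      apply Subtype.ext
      show ((xO i : OO C) : C)⁻¹ * (xO i : C) = 1
      exact inv_mul_cancel₀ (hx0 i)
    rw [this, map_one]
  choose yi hyi hyi' using hinvex
  exact ⟨yi, hyi, hyi'⟩

/-- the unit part of a pair -/
theorem pair_tame (κ : Fin n → OO C) {j l : Fin n} {A B₁ : ℕ}
    (hμ : 𝓛.Λ l ^ B₁ * (𝓛.Λ j ^ A)⁻¹ ∈ GG C p 0 le_rfl one_pos) : ∃ ν : OO C,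
    ∀ (xO : Fin n → OO C) (Y : Fin n → Cˣ), (∀ i, (Y i : C) = xO i) →
      (∀ i, ‖(xO i : C)‖ = 1) → ∀ (ζ : Cˣ) (f : ℕ), 0 < f → (ζ : C) ^ p ^ f = ζ →
      ‖((𝓛.Λ l ^ B₁ * (𝓛.Λ j ^ A)⁻¹ * (Y l ^ B₁ * (Y j ^ A)⁻¹) * ζ : Cˣ) : C) -
        (1 + p * (B₁ * (κ l * ((Y l : Cˣ) : C)⁻¹) - A * (κ j * ((Y j : Cˣ) : C)⁻¹)))‖ ≤
          ‖(p : C)‖ ^ 2 →
      ∃ F e R : OO C, (F : C) = ((Y l ^ B₁ * (Y j ^ A)⁻¹ : Cˣ) : C) ∧ F = e * (1 + p * R) ∧
        (∃ f : ℕ, 0 < f ∧ e ^ p ^ f = e) ∧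
        𝓛.red R = 𝓛.red ν + (B₁ * (𝓛.red (κ l) * (𝓛.red (xO l))⁻¹) -
          A * (𝓛.red (κ j) * (𝓛.red (xO j))⁻¹)) ∧
        𝓛.red F = 𝓛.red (xO l) ^ B₁ * (𝓛.red (xO j) ^ A)⁻¹ := by
  obtain ⟨τ, ν, hμτ, f₁, hf₁, hτ⟩ := teichU 𝓛.hp0 𝓛.hp1 hμ
  refine ⟨ν, fun xO Y hY hx1 ζ f hf hζ hexp => ?_⟩
  set μ := 𝓛.Λ l ^ B₁ * (𝓛.Λ j ^ A)⁻¹ with hμdef
  have hp0 : (p : C) ≠ 0 := pC_ne 𝓛
  have hredp : 𝓛.red (p : OO C) = 0 := by
    rw [𝓛.hker]
    simpa using 𝓛.hp1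
  have hx0 : ∀ i, (xO i : C) ≠ 0 := fun i => norm_pos_iff.1 (by rw [hx1]; exact one_pos)
  have hred0 : ∀ i, 𝓛.red (xO i) ≠ 0 := fun i => by
    rw [Ne, 𝓛.hker, hx1]; exact lt_irrefl 1
  -- inverses
  obtain ⟨yi, hyi0, hyi'⟩ := exists_inv 𝓛 hx1
  have hyi : ∀ i, (yi i : C) = ((Y i : Cˣ) : C)⁻¹ := fun i => by rw [hyi0, hY]
  -- the error term
  set ρ : OO C := B₁ * (κ l * yi l) - A * (κ j * yi j) with hρ
  have hρC : (ρ : C) = B₁ * (κ l * ((Y l : Cˣ) : C)⁻¹) - A * (κ j * ((Y j : Cˣ) : C)⁻¹) := by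
    rw [hρ]
    push_cast
    rw [hyi, hyi]
  rw [← hρC] at hexp
  obtain ⟨θ, hθ⟩ := divp2 𝓛.hp0 hexp
  -- the root of unity
  have hζNr := Nr_of_fixed hf hζ
  have hζ0 : (ζ : C) ≠ 0 := ζ.ne_zero
  have hζ1 : ‖(ζ : C)‖ = 1 := by
    have h1 : ‖(ζ : C)‖ ^ p ^ f = ‖(ζ : C)‖ := by rw [← norm_pow, hζ]
    have h2 : 0 < ‖(ζ : C)‖ := norm_pos_iff.2 hζ0
    refine le_antisymm (Nr_le hζNr) ?_
    by_contra hcon
    push Not at hcon
    have h3 : 1 < p ^ f := Nat.one_lt_pow hf.ne' hpf.out.one_lt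
    have h4 := pow_lt_pow_right_of_lt_one₀ h2 hcon h3
    rw [h1, pow_one] at h4
    exact lt_irrefl _ h4
  set zi : OO C := ⟨(ζ : C)⁻¹, by rw [mem_OO, norm_inv, hζ1, inv_one]⟩ with hzi
  have hzif : zi ^ p ^ f = zi := by
    apply Subtype.ext
    show ((ζ : C)⁻¹) ^ p ^ f = (ζ : C)⁻¹
    rw [inv_pow, hζ]
  set F : OO C := xO l ^ B₁ * yi j ^ A with hF
  have hFC : (F : C) = ((Y l ^ B₁ * (Y j ^ A)⁻¹ : Cˣ) : C) := by
    rw [hF, Units.val_mul, Units.val_pow_eq_pow_val, Units.val_inv_eq_inv_val,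
      Units.val_pow_eq_pow_val, hY l, ← inv_pow]
    push_cast
    rw [hyi]
  refine ⟨F, τ * zi, ν + ρ + p * (θ + ν * ρ + p * ν * θ), hFC, ?_, ?_, ?_, ?_⟩
  · apply Subtype.ext
    have e0 : ((p : OO C) : C) = p := by simp
    show (F : C) = (τ : C) * (ζ : C)⁻¹ * (1 + ((p : OO C) : C) * ((ν : C) + ρ +
      ((p : OO C) : C) * ((θ : C) + ν * ρ + ((p : OO C) : C) * ν * θ)))
    rw [e0]
    have e1 : ((μ * (Y l ^ B₁ * (Y j ^ A)⁻¹) * ζ : Cˣ) : C) = 1 + p * ρ + p ^ 2 * θ := by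
      linear_combination hθ
    have e2 : (F : C) = ((μ⁻¹ : Cˣ) : C) * (ζ : C)⁻¹ *
        ((μ * (Y l ^ B₁ * (Y j ^ A)⁻¹) * ζ : Cˣ) : C) := by
      rw [hFC]
      simp only [Units.val_mul, Units.val_inv_eq_inv_val]
      have hμ0 : (μ : C) ≠ 0 := μ.ne_zero
      field_simp
    rw [e2, e1, hμτ]
    ring
  · refine ⟨f₁ * f, Nat.mul_pos hf₁ hf, ?_⟩
    rw [mul_pow, fixed_mul hτ f, mul_comm f₁ f, fixed_mul hzif f₁]
  · rw [map_add, map_mul, hredp, zero_mul, add_zero, map_add, hρ, map_sub, map_mul, map_mul,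
      map_mul, map_mul, hyi', hyi', map_natCast, map_natCast]
  · rw [hF, map_mul, map_pow, map_pow, hyi', inv_pow]

/-- an approximate relation gives a relation in the residue field -/
theorem push_rel (P Q : OO C) (q : (Nr C p)[X][X])
    (h : ‖E2 (Nr C p).subtype (P : C) (Q : C) q‖ ≤ ‖(p : C)‖) :
    E2 (algebraMap k k) (𝓛.red P) (𝓛.red Q)
      ((q.map (mapRingHom 𝓛.ρ)).map (mapRingHom 𝓛.ι)) = 0 := by
  have h1 : ((E2 (NrO C p) P Q q : OO C) : C) = E2 (Nr C p).subtype (P : C) (Q : C) q :=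
    map_E2 (OO C).subtype (NrO C p) P Q q
  have h2 : 𝓛.red (E2 (NrO C p) P Q q) = 0 := by
    rw [𝓛.hker, h1]
    exact h.trans_lt 𝓛.hp1
  rw [map_E2] at h2
  have h3 : (𝓛.red.comp (NrO C p)) = 𝓛.ι.comp 𝓛.ρ := by
    refine RingHom.ext fun r => ?_
    exact (𝓛.hι r).symm
  rw [h3] at h2
  have halg : algebraMap k k = RingHom.id k := rfl
  rw [E2_map, E2_map, halg, RingHom.id_comp]
  exact h2

end LBsec

/-- Block TAME: the tame solutions for two pairs. -/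
theorem tame : S_TAME := by
  intro C _ _ _ _ p hpf k 𝕜 _ _ _ _ n N W M d D B 𝓛 κ j l j' l' A B₁ A' B₁' hjl hjl' hne hA hB
    hB' hAW hBW hAW' hBW' hμ hμ'
  classical
  have hM := 𝓛.hM
  set v := vec j l A B₁ with hvdef
  set w := vec j' l' A' B₁' with hwdef
  have hv : Bv M v := Bv_vec (by omega) (by omega) hjl
  have hw : Bv M w := Bv_vec (by omega) (by omega) hjl'
  have hvw : LI v w := LI_vec hjl hjl' hne hA hB hB'
  obtain ⟨ν, hν⟩ := pair_tame 𝓛 κ hμ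
  obtain ⟨ν', hν'⟩ := pair_tame 𝓛 κ hμ'
  obtain ⟨hmap, hBDh⟩ := 𝓛.hht v w hv hw hvw
  set h := 𝓛.ht v w with hh
  let co : ℕ × ℕ → OO C := fun m => NrO C p (cf h m)
  have hco : ∀ m, ((co m : OO C) : C) = ((cf h m : Nr C p) : C) := fun m => rfl
  have hredco : ∀ m, 𝓛.red (co m) = 𝓛.ι (cf (𝓛.𝓡.h v w) m) := by
    intro m
    rw [← hmap, cf_map]
    exact (𝓛.hι _).symm
  choose τ vv hc hτ using fun m => teichO 𝓛.hp0 𝓛.hp1 (c := co m) (cf h m).2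
  -- the polynomials
  let P₁ : MvPolynomial (Fin n × Bool) k := MvPolynomial.C (𝓛.red ν) +
    ((B₁ : MvPolynomial (Fin n × Bool) k) * (MvPolynomial.C (𝓛.red (κ l)) * MvPolynomial.X (l, true)) -
    (A : MvPolynomial (Fin n × Bool) k) * (MvPolynomial.C (𝓛.red (κ j)) * MvPolynomial.X (j, true)))
  let P₂ : MvPolynomial (Fin n × Bool) k := MvPolynomial.C (𝓛.red ν') +
    ((B₁' : MvPolynomial (Fin n × Bool) k) * (MvPolynomial.C (𝓛.red (κ l')) * MvPolynomial.X (l', true)) -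
    (A' : MvPolynomial (Fin n × Bool) k) * (MvPolynomial.C (𝓛.red (κ j')) * MvPolynomial.X (j', true)))
  let 𝓑 : MvPolynomial (Fin n × Bool) k := (∑ m ∈ box d,
    (MvPolynomial.C (𝓛.red (vv m)) * Mv k v ^ m.1 * Mv k w ^ m.2 +
      MvPolynomial.C (𝓛.red (co m)) * Mv k v ^ m.1 * Mv k w ^ m.2 *
        ((m.1 : MvPolynomial (Fin n × Bool) k) * P₁ +
          (m.2 : MvPolynomial (Fin n × Bool) k) * P₂))) -
    MvPolynomial.map 𝓛.red (𝓛.rho v w)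
  obtain ⟨U, V, r, hr, hUV⟩ := 𝓛.𝓡.hUV v w hv hw hvw
  have hιunit : ∀ r : 𝕜, IsUnit r → 𝓛.ι r ≠ 0 := fun r hr => (hr.map 𝓛.ι).ne_zero
  have hN0 : (N : k) ≠ 0 := by
    intro h0
    have h1 := (CharP.cast_eq_zero_iff k p N).1 h0
    have h2 := Nat.le_of_dvd 𝓛.hN h1
    have := 𝓛.b3
    omega
  have hfin := tame_fin (k := k) (p := p) 𝓛.hN hN0
    (fun i j => (𝓛.𝓡.g i false j).map (mapRingHom 𝓛.ι))
    (fun i j => Units.map (PowerSeries.map 𝓛.ι).toMonoidHom (𝓛.𝓡.L i false j))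
    (fun i j => (𝓛.𝓡.ys i false j).map (Units.map (PowerSeries.map 𝓛.ι).toMonoidHom))
    (fun i j hij => (𝓛.𝓡.fac i false j hij).map 𝓛.ι)
    (by
      intro i j hij y hy
      obtain ⟨y₀, hy₀, rfl⟩ := Multiset.mem_map.1 hy
      obtain ⟨m, hm, hu⟩ := 𝓛.𝓡.yn i false j hij y₀ hy₀
      refine ⟨m, hm, ?_⟩
      have e1 : ((Units.map (PowerSeries.map 𝓛.ι).toMonoidHom y₀ : (PowerSeries k)ˣ) :
        PowerSeries k) = PowerSeries.map 𝓛.ι (y₀ : PowerSeries 𝕜) := rfl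
      rw [e1, PowerSeries.coeff_map]
      exact hιunit _ hu)
    v w (fun c₁ c₂ hc => LI_mod hv hw hvw 𝓛.b6 c₁ c₂ hc)
    (h := (𝓛.𝓡.h v w).map (mapRingHom 𝓛.ι)) (d := d) ((𝓛.𝓡.hBD v w hv hw hvw).map 𝓛.ι)
    (U := U.map (mapRingHom 𝓛.ι)) (V := V.map (mapRingHom 𝓛.ι)) (r := r.map 𝓛.ι)
    (by
      obtain ⟨i, hi⟩ := hr
      intro h0
      have := congrArg (fun f => coeff f i) h0
      simp only [coeff_map, coeff_zero] at this
      exact hιunit _ hi this)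
    (by
      have := congrArg (Polynomial.map (mapRingHom 𝓛.ι)) hUV
      rw [Polynomial.map_add, Polynomial.map_mul, Polynomial.map_mul, Polynomial.map_mul,
        ← derivative_map, Polynomial.map_X, Polynomial.map_C] at this
      exact this) 𝓑
  refine ⟨_, hfin, ?_⟩
  intro x hx xO Y hxO hY hx1 ζ ζ' f f' hf hζ hf' hζ' hexp hexp'
  obtain ⟨F, e, R, hF, hFe, he, hR, hFr⟩ := hν xO Y hY hx1 ζ f hf hζ hexp
  obtain ⟨F', e', R', hF', hFe', he', hR', hFr'⟩ := hν' xO Y hY hx1 ζ' f' hf' hζ' hexp'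
  have hxn : ∀ i, ‖x i‖ = 1 := fun i => by rw [← hxO]; exact hx1 i
  have hx0 : ∀ i, x i ≠ 0 := fun i => norm_pos_iff.1 (by rw [hxn]; exact one_pos)
  set xb : Fin n → k := fun i => 𝓛.red (xO i) with hxb
  have hxb0 : ∀ i, xb i ≠ 0 := fun i => by
    show 𝓛.red (xO i) ≠ 0
    rw [Ne, 𝓛.hker, hx1]; exact lt_irrefl 1
  have hFv : 𝓛.red F = ∏ i, xb i ^ v i := by
    rw [hvdef, prod_vec xb hjl (hxb0 j), hFr]
  have hFw : 𝓛.red F' = ∏ i, xb i ^ w i := by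
    rw [hwdef, prod_vec xb hjl' (hxb0 j'), hFr']
  have hFC : (F : C) = ∏ i, x i ^ v i := by
    rw [hvdef, prod_vec x hjl (hx0 j), hF, Units.val_mul, Units.val_pow_eq_pow_val,
      Units.val_inv_eq_inv_val, Units.val_pow_eq_pow_val, hY, hY, hxO, hxO]
  have hFC' : (F' : C) = ∏ i, x i ^ w i := by
    rw [hwdef, prod_vec x hjl' (hx0 j'), hF', Units.val_mul, Units.val_pow_eq_pow_val,
      Units.val_inv_eq_inv_val, Units.val_pow_eq_pow_val, hY, hY, hxO, hxO]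
  have halg : algebraMap k k = RingHom.id k := rfl
  have hredp : 𝓛.red (p : OO C) = 0 := by
    rw [𝓛.hker]
    simpa using 𝓛.hp1
  refine ⟨hxb0, ?_, ?_, ?_⟩
  · intro i j hij
    obtain ⟨g', hg'⟩ : ∃ g' : (Nr C p)[X][X], g'.map (mapRingHom 𝓛.ρ) = 𝓛.𝓡.g i false j :=
      Polynomial.map_surjective (mapRingHom 𝓛.ρ) (Polynomial.map_surjective 𝓛.ρ 𝓛.hρs) _
    have h1 := hx.r1 i false j hij (Or.inl ⟨rfl, (hxn i).le⟩) (hxn j).le g' hg'
    have h2 := push_rel 𝓛 (xO i) (xO j) g' (by rw [hxO, hxO]; exact h1)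
    rw [hg'] at h2
    exact h2
  · have h1 := hx.r2 v w hv hw hvw (fun i _ => hxn i)
    rw [← hFC, ← hFC'] at h1
    have h2 := push_rel 𝓛 F F' _ h1
    rw [hmap, hFv, hFw] at h2
    exact h2
  · -- the value of the error term
    obtain ⟨yi, hyi, hyi'⟩ := exists_inv 𝓛 hx1
    set z : Fin n × Bool → OO C := fun q => if q.2 then yi q.1 else xO q.1 with hz
    set R0 : OO C := MvPolynomial.eval₂ (RingHom.id (OO C)) z (𝓛.rho v w) with hR0
    have hzC : (fun q => ((z q : OO C) : C)) = xx x := by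
      funext q
      obtain ⟨i, b⟩ := q
      cases b with
      | true => simp [hz, xx, hyi, hxO]
      | false => simp [hz, xx, hxO]
    have hzr : (fun q => 𝓛.red (z q)) = xx xb := by
      funext q
      obtain ⟨i, b⟩ := q
      cases b with
      | true => simp [hz, xx, hyi', hxb]
      | false => simp [hz, xx, hxb]
    have hR0C : (R0 : C) = MvPolynomial.eval₂ (OO C).subtype (xx x) (𝓛.rho v w) := by
      have h1 := MvPolynomial.eval₂_comp_left (OO C).subtype (RingHom.id (OO C)) z (𝓛.rho v w)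
      rw [RingHom.comp_id] at h1
      rw [← hzC]
      exact h1
    have hR0r : 𝓛.red R0 = MvPolynomial.aeval (xx xb) (MvPolynomial.map 𝓛.red (𝓛.rho v w)) := by
      have h1 := MvPolynomial.eval₂_comp_left 𝓛.red (RingHom.id (OO C)) z (𝓛.rho v w)
      rw [RingHom.comp_id] at h1
      rw [hR0, h1, MvPolynomial.aeval_def, MvPolynomial.eval₂_map, halg, RingHom.id_comp, ← hzr]
      rfl
    have hrel0 : ∑ m ∈ box d, co m * F ^ m.1 * F' ^ m.2 = p * R0 := by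
      apply Subtype.ext
      have h1 := hx.r3 v w hv hw hvw hxn
      rw [E2_eq_sum hBDh, ← hFC, ← hFC', ← hR0C] at h1
      have h2 : (((∑ m ∈ box d, co m * F ^ m.1 * F' ^ m.2 : OO C)) : C) =
          ∑ m ∈ box d, ((co m : OO C) : C) * (F : C) ^ m.1 * (F' : C) ^ m.2 := by
        push_cast
        rfl
      rw [h2]
      refine h1.trans ?_
      push_cast
      rfl
    have h00 : ((0, 0) : ℕ × ℕ) ∈ box d := by
      simp [box]
    set c' : ℕ × ℕ → OO C := fun m => if m = (0, 0) then co m - p * R0 else co m with hc'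
    set v' : ℕ × ℕ → OO C := fun m => if m = (0, 0) then vv m - R0 else vv m with hv'
    have hcv' : ∀ m, c' m = τ m + p * v' m := by
      intro m
      simp only [hc', hv']
      split_ifs
      · rw [hc m]; ring
      · exact hc m
    have hredc' : ∀ m, 𝓛.red (c' m) = 𝓛.red (co m) := by
      intro m
      simp only [hc']
      split_ifs
      · rw [map_sub, map_mul, hredp, zero_mul, sub_zero]
      · rfl
    have hrel : ∑ m ∈ box d, c' m * F ^ m.1 * F' ^ m.2 = 0 := by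
      have h1 : ∀ m ∈ box d, c' m * F ^ m.1 * F' ^ m.2 =
          co m * F ^ m.1 * F' ^ m.2 - (if m = (0, 0) then p * R0 else 0) := by
        intro m _
        simp only [hc']
        split_ifs with hm
        · rw [hm, pow_zero, pow_zero]; ring
        · rw [sub_zero]
      rw [Finset.sum_congr rfl h1, Finset.sum_sub_distrib, hrel0, Finset.sum_ite_eq' (box d),
        if_pos h00, sub_self]
    have h1 := tame_eq2 𝓛.red (pO_ne 𝓛) c' τ v' hcv' hτ he he' hFe hFe' hrel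
    have hL : (fun m : Bx d => cf ((𝓛.𝓡.h v w).map (mapRingHom 𝓛.ι)) m.1 *
        (∏ i, xb i ^ v i) ^ m.1.1 * (∏ i, xb i ^ w i) ^ m.1.2) =
        fun m : Bx d => 𝓛.red (c' m.1) * 𝓛.red F ^ m.1.1 * 𝓛.red F' ^ m.1.2 := by
      funext m
      rw [cf_map, hredc', hredco, hFv, hFw]
    rw [hL]
    refine h1.trans ?_
    congr 1
    have e1 : MvPolynomial.aeval (xx xb) P₁ = 𝓛.red R := by
      rw [hR]
      show MvPolynomial.aeval (xx xb) (MvPolynomial.C (𝓛.red ν) +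
        ((B₁ : MvPolynomial (Fin n × Bool) k) * (MvPolynomial.C (𝓛.red (κ l)) * MvPolynomial.X (l, true)) -
        (A : MvPolynomial (Fin n × Bool) k) * (MvPolynomial.C (𝓛.red (κ j)) * MvPolynomial.X (j, true)))) = _
      simp only [map_add, map_sub, map_mul, map_natCast, MvPolynomial.aeval_X,
        MvPolynomial.aeval_C]
      simp [xx, hxb]
    have e2 : MvPolynomial.aeval (xx xb) P₂ = 𝓛.red R' := by
      rw [hR']
      show MvPolynomial.aeval (xx xb) (MvPolynomial.C (𝓛.red ν') +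
        ((B₁' : MvPolynomial (Fin n × Bool) k) * (MvPolynomial.C (𝓛.red (κ l')) * MvPolynomial.X (l', true)) -
        (A' : MvPolynomial (Fin n × Bool) k) * (MvPolynomial.C (𝓛.red (κ j')) * MvPolynomial.X (j', true)))) = _
      simp only [map_add, map_sub, map_mul, map_natCast, MvPolynomial.aeval_X,
        MvPolynomial.aeval_C]
      simp [xx, hxb]
    have e3 : MvPolynomial.aeval (xx xb) 𝓑 = (∑ m ∈ box d,
        (𝓛.red (vv m) * 𝓛.red F ^ m.1 * 𝓛.red F' ^ m.2 +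
          𝓛.red (co m) * 𝓛.red F ^ m.1 * 𝓛.red F' ^ m.2 *
            (m.1 * 𝓛.red R + m.2 * 𝓛.red R'))) - 𝓛.red R0 := by
      show MvPolynomial.aeval (xx xb) ((∑ m ∈ box d,
        (MvPolynomial.C (𝓛.red (vv m)) * Mv k v ^ m.1 * Mv k w ^ m.2 +
          MvPolynomial.C (𝓛.red (co m)) * Mv k v ^ m.1 * Mv k w ^ m.2 *
          ((m.1 : MvPolynomial (Fin n × Bool) k) * P₁ +
            (m.2 : MvPolynomial (Fin n × Bool) k) * P₂))) -
        MvPolynomial.map 𝓛.red (𝓛.rho v w)) = _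
      rw [map_sub, ← hR0r, map_sum]
      congr 1
      refine Finset.sum_congr rfl fun m _ => ?_
      rw [map_add, map_mul, map_mul, map_mul, map_mul, map_mul, map_add, map_mul, map_mul,
        map_natCast, map_natCast, map_pow, map_pow, aeval_Mv hxb0, aeval_Mv hxb0, e1, e2,
        MvPolynomial.aeval_C, MvPolynomial.aeval_C, ← hFv, ← hFw, halg]
      rfl
    rw [e3]
    have e4 : ∀ m ∈ box d, 𝓛.red (v' m) * 𝓛.red F ^ m.1 * 𝓛.red F' ^ m.2 +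
        𝓛.red (c' m) * 𝓛.red F ^ m.1 * 𝓛.red F' ^ m.2 * (m.1 * 𝓛.red R + m.2 * 𝓛.red R') =
        (𝓛.red (vv m) * 𝓛.red F ^ m.1 * 𝓛.red F' ^ m.2 +
          𝓛.red (co m) * 𝓛.red F ^ m.1 * 𝓛.red F' ^ m.2 *
            (m.1 * 𝓛.red R + m.2 * 𝓛.red R')) - (if m = (0, 0) then 𝓛.red R0 else 0) := by
      intro m _
      rw [hredc']
      simp only [hv']
      split_ifs with hm
      · rw [hm, map_sub, pow_zero, pow_zero]; ring
      · rw [sub_zero]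
    rw [Finset.sum_congr rfl e4, Finset.sum_sub_distrib, Finset.sum_ite_eq' (box d), if_pos h00]

end Pool.Agent.Y948.ZX
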