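import Pool.Agent.Y92.ZX.Stm4
import Pool.Agent.Y948.ZX.Tame
import Pool.Agent.Y226.ZM.L1

/-!
# Tame solutions for a pair and a multiplicative relation (after Pool.Agent.Y226.ZM.L1, L2)
-/

set_option autoImplicit false
set_option linter.unusedSectionVars false

open UpperHalfPlane H294ZP Polynomial

namespace Pool.Agent.Y948.ZX

open Pool.Agent.Y226 Pool.Agent.Y226.ZG Pool.Agent.Y226.ZM Pool.Agent.Y226.ZU Pool.Agent.Y92.ZX

section redprod

variable {C : Type} [NormedField C] [IsUltrametricDist C] {k : Type} [Field k] {n : ℕ}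
  {red : OO C →+* k} (hker : ∀ x : OO C, red x = 0 ↔ ‖(x : C)‖ < 1)

include hker

theorem red_ne_of {u : OO C} (hu : ‖(u : C)‖ = 1) : red u ≠ 0 := by
  rw [Ne, hker, hu]; exact lt_irrefl 1

/-- reduction of monomials -/
theorem red_prod_of {x : Fin n → C} {xO : Fin n → OO C} {v : Fin n → ℤ}
    (hxO : ∀ i, v i ≠ 0 → (xO i : C) = x i) (hx1 : ∀ i, v i ≠ 0 → ‖(xO i : C)‖ = 1) {F : OO C}
    (hF : (F : C) = ∏ i, x i ^ v i) : red F = ∏ i, red (xO i) ^ v i := by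
  have h1 : F * ∏ i, xO i ^ (-v i).toNat = ∏ i, xO i ^ (v i).toNat := by
    apply Subtype.ext
    have e1 : ((∏ i, xO i ^ (-v i).toNat : OO C) : C) = ∏ i, (xO i : C) ^ (-v i).toNat := by
      push_cast
      rfl
    have e2 : ((∏ i, xO i ^ (v i).toNat : OO C) : C) = ∏ i, (xO i : C) ^ (v i).toNat := by
      push_cast
      rfl
    show (F : C) * ((∏ i, xO i ^ (-v i).toNat : OO C) : C) = ((∏ i, xO i ^ (v i).toNat : OO C) : C)
    rw [e1, e2, hF, ← Finset.prod_mul_distrib]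
    refine Finset.prod_congr rfl fun i _ => ?_
    by_cases hi : v i = 0
    · simp [hi]
    · rw [hxO i hi]
      exact (zpow_split (fun _ => by
        rw [← hxO i hi]
        exact norm_pos_iff.1 (by rw [hx1 i hi]; exact one_pos))).symm
  have h2 := congrArg red h1
  rw [map_mul, map_prod, map_prod] at h2
  have h3 : ∏ i, red (xO i ^ (-v i).toNat) ≠ 0 := by
    refine Finset.prod_ne_zero_iff.2 fun i _ => ?_
    rw [map_pow]
    by_cases hi : v i = 0
    · simp [hi]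
    · exact pow_ne_zero _ (red_ne_of hker (hx1 i hi))
  apply mul_right_cancel₀ h3
  rw [h2, ← Finset.prod_mul_distrib]
  refine Finset.prod_congr rfl fun i _ => ?_
  rw [map_pow, map_pow]
  exact zpow_split (fun h => red_ne_of hker (hx1 i h))

end redprod

section LBsec

variable {C : Type} [NormedField C] [IsUltrametricDist C] [CharZero C]
  [IsAlgClosed C] {p : ℕ} [hpf : Fact p.Prime] {k 𝕜 : Type}
  [Field k] [Field 𝕜] {n N W M d D B : ℕ} (𝓛 : LB C p k 𝕜 n N W M d D B)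

/-- the tame solutions for two independent monomials -/
theorem tame_coreB [CharP k p] [IsAlgClosed k] {v w : Fin n → ℤ} (hv : Bv M v) (hw : Bv M w)
    (hvw : LI v w) (P₁ P₂ : MvPolynomial (Fin n × Bool) k) :
    ∃ T : Set (Fin n → k), T.Finite ∧ ∀ (x : Fin n → C), 𝓛.Pt x → ∀ (xO : Fin n → OO C),
      (∀ i, (xO i : C) = x i) → (∀ i, ‖(xO i : C)‖ = 1) → ∀ F e R F' e' R' : OO C,
      (F : C) = ∏ i, x i ^ v i → (F' : C) = ∏ i, x i ^ w i → F = e * (1 + p * R) →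
      F' = e' * (1 + p * R') → (∃ f : ℕ, 0 < f ∧ e ^ p ^ f = e) →
      (∃ f : ℕ, 0 < f ∧ e' ^ p ^ f = e') →
      𝓛.red R = MvPolynomial.aeval (xx fun i => 𝓛.red (xO i)) P₁ →
      𝓛.red R' = MvPolynomial.aeval (xx fun i => 𝓛.red (xO i)) P₂ →
      (fun i => 𝓛.red (xO i)) ∈ T := by
  classical
  obtain ⟨hmap, hBDh⟩ := 𝓛.hht v w hv hw hvw
  set h := 𝓛.ht v w with hh
  let co : ℕ × ℕ → OO C := fun m => NrO C p (cf h m)
  have hco : ∀ m, ((co m : OO C) : C) = ((cf h m : Nr C p) : C) := fun m => rfl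
  have hredco : ∀ m, 𝓛.red (co m) = 𝓛.ι (cf (𝓛.𝓡.h v w) m) := by
    intro m
    rw [← hmap, cf_map]
    exact (𝓛.hι _).symm
  choose τ vv hc hτ using fun m => teichO 𝓛.hp0 𝓛.hp1 (c := co m) (cf h m).2
  -- the polynomial
  let 𝓑 : MvPolynomial (Fin n × Bool) k := (∑ m ∈ box d,
    (MvPolynomial.C (𝓛.red (vv m)) * Mv k v ^ m.1 * Mv k w ^ m.2 +
      MvPolynomial.C (𝓛.red (co m)) * Mv k v ^ m.1 * Mv k w ^ m.2 *
        ((m.1 : MvPolynomial (Fin n × Bool) k) * P₁ +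
          (m.2 : MvPolynomial (Fin n × Bool) k) * P₂))) -
    MvPolynomial.map 𝓛.red (𝓛.rho v w)
  obtain ⟨U, V, r, hr, hUV⟩ := 𝓛.𝓡.hUV v w hv hw hvw
  have hιunit : ∀ r : 𝕜, IsUnit r → 𝓛.ι r ≠ 0 := fun r hr => (hr.map 𝓛.ι).ne_zero
  have hN0 : (N : k) ≠ 0 := by
    intro h0
    have h1 := (CharP.cast_eq_zero_iff k p N).1 h0
    have h2 := Nat.le_of_dvd 𝓛.hN h1
    have := 𝓛.b3
    omega
  have hfin := tame_fin (k := k) (p := p) 𝓛.hN hN0
    (fun i j => (𝓛.𝓡.g i false j).map (mapRingHom 𝓛.ι))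
    (fun i j => Units.map (PowerSeries.map 𝓛.ι).toMonoidHom (𝓛.𝓡.L i false j))
    (fun i j => (𝓛.𝓡.ys i false j).map (Units.map (PowerSeries.map 𝓛.ι).toMonoidHom))
    (fun i j hij => (𝓛.𝓡.fac i false j hij).map 𝓛.ι)
    (by
      intro i j hij y hy
      obtain ⟨y₀, hy₀, rfl⟩ := Multiset.mem_map.1 hy
      obtain ⟨m, hm, hu⟩ := 𝓛.𝓡.yn i false j hij y₀ hy₀
      refine ⟨m, hm, ?_⟩
      have e1 : ((Units.map (PowerSeries.map 𝓛.ι).toMonoidHom y₀ : (PowerSeries k)ˣ) :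
        PowerSeries k) = PowerSeries.map 𝓛.ι (y₀ : PowerSeries 𝕜) := rfl
      rw [e1, PowerSeries.coeff_map]
      exact hιunit _ hu)
    v w (fun c₁ c₂ hc => LI_mod hv hw hvw 𝓛.b6 c₁ c₂ hc)
    (h := (𝓛.𝓡.h v w).map (mapRingHom 𝓛.ι)) (d := d) ((𝓛.𝓡.hBD v w hv hw hvw).map 𝓛.ι)
    (U := U.map (mapRingHom 𝓛.ι)) (V := V.map (mapRingHom 𝓛.ι)) (r := r.map 𝓛.ι)
    (by
      obtain ⟨i, hi⟩ := hr
      intro h0
      have := congrArg (fun f => coeff f i) h0
      simp only [coeff_map, coeff_zero] at this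
      exact hιunit _ hi this)
    (by
      have := congrArg (Polynomial.map (mapRingHom 𝓛.ι)) hUV
      rw [Polynomial.map_add, Polynomial.map_mul, Polynomial.map_mul, Polynomial.map_mul,
        ← derivative_map, Polynomial.map_X, Polynomial.map_C] at this
      exact this) 𝓑
  refine ⟨_, hfin, ?_⟩
  intro x hx xO hxO hx1 F e R F' e' R' hFC hFC' hFe hFe' he he' hR hR'
  have hxn : ∀ i, ‖x i‖ = 1 := fun i => by rw [← hxO]; exact hx1 i
  have hx0 : ∀ i, x i ≠ 0 := fun i => norm_pos_iff.1 (by rw [hxn]; exact one_pos)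
  set xb : Fin n → k := fun i => 𝓛.red (xO i) with hxb
  have hxb0 : ∀ i, xb i ≠ 0 := fun i => by
    show 𝓛.red (xO i) ≠ 0
    rw [Ne, 𝓛.hker, hx1]; exact lt_irrefl 1
  have hFv : 𝓛.red F = ∏ i, xb i ^ v i :=
    red_prod_of 𝓛.hker (fun i _ => hxO i) (fun i _ => hx1 i) hFC
  have hFw : 𝓛.red F' = ∏ i, xb i ^ w i :=
    red_prod_of 𝓛.hker (fun i _ => hxO i) (fun i _ => hx1 i) hFC'
  have halg : algebraMap k k = RingHom.id k := rfl
  have hredp : 𝓛.red (p : OO C) = 0 := by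
    rw [𝓛.hker]
    simpa using 𝓛.hp1
  refine ⟨hxb0, ?_, ?_, ?_⟩
  · intro i j hij
    obtain ⟨g', hg'⟩ : ∃ g' : (Nr C p)[X][X], g'.map (mapRingHom 𝓛.ρ) = 𝓛.𝓡.g i false j :=
      Polynomial.map_surjective (mapRingHom 𝓛.ρ) (Polynomial.map_surjective 𝓛.ρ 𝓛.hρs) _
    have h1 := hx.r1 i false j hij (Or.inl ⟨rfl, (hxn i).le⟩) (hxn j).le g' hg'
    have h2 := push_rel 𝓛 (xO i) (xO j) g' (by rw [hxO, hxO]; exact h1)
    rw [hg'] at h2
    exact h2
  · have h1 := hx.r2 v w hv hw hvw (fun i _ => hxn i)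
    rw [← hFC, ← hFC'] at h1
    have h2 := push_rel 𝓛 F F' _ h1
    rw [hmap, hFv, hFw] at h2
    exact h2
  · -- the value of the error term
    obtain ⟨yi, hyi, hyi'⟩ := exists_inv 𝓛 hx1
    set z : Fin n × Bool → OO C := fun q => if q.2 then yi q.1 else xO q.1 with hz
    set R0 : OO C := MvPolynomial.eval₂ (RingHom.id (OO C)) z (𝓛.rho v w) with hR0
    have hzC : (fun q => ((z q : OO C) : C)) = xx x := by
      funext q
      obtain ⟨i, b⟩ := q
      cases b with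
      | true => simp [hz, xx, hyi, hxO]
      | false => simp [hz, xx, hxO]
    have hzr : (fun q => 𝓛.red (z q)) = xx xb := by
      funext q
      obtain ⟨i, b⟩ := q
      cases b with
      | true => simp [hz, xx, hyi', hxb]
      | false => simp [hz, xx, hxb]
    have hR0C : (R0 : C) = MvPolynomial.eval₂ (OO C).subtype (xx x) (𝓛.rho v w) := by
      have h1 := MvPolynomial.eval₂_comp_left (OO C).subtype (RingHom.id (OO C)) z (𝓛.rho v w)
      rw [RingHom.comp_id] at h1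
      rw [← hzC]
      exact h1
    have hR0r : 𝓛.red R0 = MvPolynomial.aeval (xx xb) (MvPolynomial.map 𝓛.red (𝓛.rho v w)) := by
      have h1 := MvPolynomial.eval₂_comp_left 𝓛.red (RingHom.id (OO C)) z (𝓛.rho v w)
      rw [RingHom.comp_id] at h1
      rw [hR0, h1, MvPolynomial.aeval_def, MvPolynomial.eval₂_map, halg, RingHom.id_comp, ← hzr]
      rfl
    have hrel0 : ∑ m ∈ box d, co m * F ^ m.1 * F' ^ m.2 = p * R0 := by
      apply Subtype.ext
      have h1 := hx.r3 v w hv hw hvw hxn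
      rw [E2_eq_sum hBDh, ← hFC, ← hFC', ← hR0C] at h1
      have h2 : (((∑ m ∈ box d, co m * F ^ m.1 * F' ^ m.2 : OO C)) : C) =
          ∑ m ∈ box d, ((co m : OO C) : C) * (F : C) ^ m.1 * (F' : C) ^ m.2 := by
        push_cast
        rfl
      rw [h2]
      refine h1.trans ?_
      push_cast
      rfl
    have h00 : ((0, 0) : ℕ × ℕ) ∈ box d := by
      simp [box]
    set c' : ℕ × ℕ → OO C := fun m => if m = (0, 0) then co m - p * R0 else co m with hc'
    set v' : ℕ × ℕ → OO C := fun m => if m = (0, 0) then vv m - R0 else vv m with hv'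
    have hcv' : ∀ m, c' m = τ m + p * v' m := by
      intro m
      simp only [hc', hv']
      split_ifs
      · rw [hc m]; ring
      · exact hc m
    have hredc' : ∀ m, 𝓛.red (c' m) = 𝓛.red (co m) := by
      intro m
      simp only [hc']
      split_ifs
      · rw [map_sub, map_mul, hredp, zero_mul, sub_zero]
      · rfl
    have hrel : ∑ m ∈ box d, c' m * F ^ m.1 * F' ^ m.2 = 0 := by
      have h1 : ∀ m ∈ box d, c' m * F ^ m.1 * F' ^ m.2 =
          co m * F ^ m.1 * F' ^ m.2 - (if m = (0, 0) then p * R0 else 0) := by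
        intro m _
        simp only [hc']
        split_ifs with hm
        · rw [hm, pow_zero, pow_zero]; ring
        · rw [sub_zero]
      rw [Finset.sum_congr rfl h1, Finset.sum_sub_distrib, hrel0, Finset.sum_ite_eq' (box d),
        if_pos h00, sub_self]
    have h1 := tame_eq2 𝓛.red (pO_ne 𝓛) c' τ v' hcv' hτ he he' hFe hFe' hrel
    have hL : (fun m : Bx d => cf ((𝓛.𝓡.h v w).map (mapRingHom 𝓛.ι)) m.1 *
        (∏ i, xb i ^ v i) ^ m.1.1 * (∏ i, xb i ^ w i) ^ m.1.2) =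
        fun m : Bx d => 𝓛.red (c' m.1) * 𝓛.red F ^ m.1.1 * 𝓛.red F' ^ m.1.2 := by
      funext m
      rw [cf_map, hredc', hredco, hFv, hFw]
    rw [hL]
    refine h1.trans ?_
    congr 1
    have e1 : MvPolynomial.aeval (xx xb) P₁ = 𝓛.red R := hR.symm
    have e2 : MvPolynomial.aeval (xx xb) P₂ = 𝓛.red R' := hR'.symm
    have e3 : MvPolynomial.aeval (xx xb) 𝓑 = (∑ m ∈ box d,
        (𝓛.red (vv m) * 𝓛.red F ^ m.1 * 𝓛.red F' ^ m.2 +
          𝓛.red (co m) * 𝓛.red F ^ m.1 * 𝓛.red F' ^ m.2 *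
            (m.1 * 𝓛.red R + m.2 * 𝓛.red R'))) - 𝓛.red R0 := by
      show MvPolynomial.aeval (xx xb) ((∑ m ∈ box d,
        (MvPolynomial.C (𝓛.red (vv m)) * Mv k v ^ m.1 * Mv k w ^ m.2 +
          MvPolynomial.C (𝓛.red (co m)) * Mv k v ^ m.1 * Mv k w ^ m.2 *
          ((m.1 : MvPolynomial (Fin n × Bool) k) * P₁ +
            (m.2 : MvPolynomial (Fin n × Bool) k) * P₂))) -
        MvPolynomial.map 𝓛.red (𝓛.rho v w)) = _
      rw [map_sub, ← hR0r, map_sum]
      congr 1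
      refine Finset.sum_congr rfl fun m _ => ?_
      rw [map_add, map_mul, map_mul, map_mul, map_mul, map_mul, map_add, map_mul, map_mul,
        map_natCast, map_natCast, map_pow, map_pow, aeval_Mv hxb0, aeval_Mv hxb0, e1, e2,
        MvPolynomial.aeval_C, MvPolynomial.aeval_C, ← hFv, ← hFw, halg]
      rfl
    rw [e3]
    have e4 : ∀ m ∈ box d, 𝓛.red (v' m) * 𝓛.red F ^ m.1 * 𝓛.red F' ^ m.2 +
        𝓛.red (c' m) * 𝓛.red F ^ m.1 * 𝓛.red F' ^ m.2 * (m.1 * 𝓛.red R + m.2 * 𝓛.red R') =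
        (𝓛.red (vv m) * 𝓛.red F ^ m.1 * 𝓛.red F' ^ m.2 +
          𝓛.red (co m) * 𝓛.red F ^ m.1 * 𝓛.red F' ^ m.2 *
            (m.1 * 𝓛.red R + m.2 * 𝓛.red R')) - (if m = (0, 0) then 𝓛.red R0 else 0) := by
      intro m _
      rw [hredc']
      simp only [hv']
      split_ifs with hm
      · rw [hm, map_sub, pow_zero, pow_zero]; ring
      · rw [sub_zero]
    rw [Finset.sum_congr rfl e4, Finset.sum_sub_distrib, Finset.sum_ite_eq' (box d), if_pos h00]

end LBsec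

/-- Block TMIX: the tame solutions for a pair and a multiplicative relation. -/
theorem tmix : S_TMIX := by
  intro C _ _ _ _ p hpf k 𝕜 _ _ _ _ n N W M d D B 𝓛 κ j l A B₁ hjl hB hAW hBW hμ b hb hbl hb0
    ν hν
  classical
  have hM := 𝓛.hM
  have hv : Bv M (vec j l A B₁) := Bv_vec (by omega) (by omega) hjl
  have hvw : LI (vec j l A B₁) b := LI_vec_off hjl hB hbl hb0
  obtain ⟨ν₁, hν₁⟩ := pair_tame 𝓛 κ hμ
  obtain ⟨τ, ν₂, hντ, f₂, hf₂, hτ⟩ := teichU 𝓛.hp0 𝓛.hp1 hν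
  let P₁ : MvPolynomial (Fin n × Bool) k := MvPolynomial.C (𝓛.red ν₁) +
    ((B₁ : MvPolynomial (Fin n × Bool) k) * (MvPolynomial.C (𝓛.red (κ l)) * MvPolynomial.X (l, true)) -
    (A : MvPolynomial (Fin n × Bool) k) * (MvPolynomial.C (𝓛.red (κ j)) * MvPolynomial.X (j, true)))
  obtain ⟨T, hT, hT'⟩ := tame_coreB 𝓛 hv hb hvw P₁ (MvPolynomial.C (𝓛.red ν₂))
  refine ⟨T, hT, ?_⟩
  intro x hx xO Y hxO hY hx1 ζ ζ' f f' hf hζ hf' hζ' hexp hmul
  obtain ⟨F, e, R, hF, hFe, he, hR, -⟩ := hν₁ xO Y hY hx1 ζ f hf hζ hexp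
  have hx0 : ∀ i, x i ≠ 0 := fun i => by
    rw [← hxO]; exact norm_pos_iff.1 (by rw [hx1]; exact one_pos)
  have hζNr := Nr_of_fixed hf' hζ'
  set Z : OO C := ⟨(ζ' : C), Nr_le hζNr⟩ with hZ
  refine hT' x hx xO hxO hx1 F e R (Z * τ * (1 + p * ν₂)) (Z * τ) ν₂ ?_ ?_ hFe rfl he ?_ ?_ ?_
  · rw [prod_vec x hjl (hx0 j), hF, Units.val_mul, Units.val_pow_eq_pow_val,
      Units.val_inv_eq_inv_val, Units.val_pow_eq_pow_val, hY, hY, hxO, hxO]
  · have e0 : ((p : OO C) : C) = p := by simp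
    show (ζ' : C) * (τ : C) * (1 + ((p : OO C) : C) * (ν₂ : C)) = _
    rw [e0, mul_assoc, ← hντ, ← hmul]
    rw [mul_right_comm, ← Units.val_mul, mul_inv_cancel, Units.val_one, one_mul]
  · refine ⟨f' * f₂, Nat.mul_pos hf' hf₂, ?_⟩
    have hZf : Z ^ p ^ f' = Z := Subtype.ext hζ'
    rw [mul_pow, mul_comm f' f₂, fixed_mul hτ f', mul_comm f₂ f', fixed_mul hZf f₂]
  · rw [hR]
    show _ = MvPolynomial.aeval (xx fun i => 𝓛.red (xO i)) (MvPolynomial.C (𝓛.red ν₁) +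
        ((B₁ : MvPolynomial (Fin n × Bool) k) * (MvPolynomial.C (𝓛.red (κ l)) * MvPolynomial.X (l, true)) -
        (A : MvPolynomial (Fin n × Bool) k) * (MvPolynomial.C (𝓛.red (κ j)) * MvPolynomial.X (j, true))))
    simp only [map_add, map_sub, map_mul, map_natCast, MvPolynomial.aeval_X,
      MvPolynomial.aeval_C]
    simp [xx]
  · rw [MvPolynomial.aeval_C]
    rfl

end Pool.Agent.Y948.ZX
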